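import Pool.Agent.Helper17.RV.LawMain

set_option autoImplicit false

/-!
# The rational point of a random complete intersection of general type in an arbitrary variety

Let `V` be an arbitrary projective variety over `ℚ` (with any singularities) of dimension `m` in
projective `n`-space, defined by a set `E` of forms that generates a prime ideal, and suppose that
`V` has a rational point. For degrees `d_1, …, d_s ≥ 1` with sum `D` let

  `V_F = V ∩ {F_1 = ⋯ = F_s = 0}`

where `F = (F_1, …, F_s)` runs through the systems of integral forms of degrees `d_1, …, d_s` with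
coefficients of absolute value at most `H`. We suppose that

* `D ≥ m + 2`, and put `θ = m + 1`, or
* `D ≥ m + 1` and `V` is not a linear subspace, and put `θ = m + 1 - 1 / (m + 3)`.

(By Mori and Fujita this condition ensures, for smooth `V`, that the smooth `V_F` have an ample
canonical class, so that they are of general type; it is best possible for linear subspaces and for
quadrics.) Then:

* **Asymptotic formula.** The number of the `F` for which `V_F` has a rational point of height at
  most `T` is asymptotic to `c H ^ (-s)` times the number of all `F`, with a constant `c > 0`, for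
  all `T = T (H) → ∞` with `T ≤ H ^ (D / θ - η)`, `η > 0` (as `D / θ > 1`, this contains the `T` up
  to a power of `H` with an exponent greater than `1`).
* **Limit law.** For every rational point `x` of `V` the proportion of the `F` with `x ∈ V_F` among
  these `F` converges to `μ (x) / c > 0`, where `μ (x)` is the limit of `H ^ s` times the proportion
  of the `F` with `x ∈ V_F` among all `F`. The `μ (x) / c` form a probability measure on `V (ℚ)`
  (the sum of the `μ (x)` over the primitive vectors `x`, two for every rational point, is `2 c`):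
  no mass is lost at infinity.
* **Uniqueness.** All but a proportion `C H ^ (-δ)` of these `V_F` have exactly one rational point of
  height at most `T`.
* **Its height.** All but a proportion `C ((R + 1) ^ (-(D - θ)) + H ^ (-δ))` of these `V_F` have no
  rational point of height in `(R, T]`, for all `R`.

For `V` the projective space uniqueness and the estimate for the height are in the library
(`UniqueRationalPoint`), and the order of magnitude `H ^ (-s)` is in `RandomCompleteInters`; the
asymptotic formula and the limit law are new for projective space, too.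
-/

namespace Pool.Agent.Results.MP_7ede32_ag.LawOfTheRationalPoint

open MvPolynomial Filter Topology Pool.Agent.R870.RC Pool.Agent.Helper17.RV

theorem result (n m s : ℕ) (E : Set (MvPolynomial (Fin (n + 1)) ℚ))
    (hE : ∀ P ∈ E, ∃ e, P.IsHomogeneous e) (hprime : (Ideal.span E).IsPrime)
    (hdim : Algebra.trdeg ℚ (MvPolynomial (Fin (n + 1)) ℚ ⧸ Ideal.span E) = m + 1)
    (hV : (Points E).Nonempty) (d : Fin s → ℕ) (hd : ∀ i, 1 ≤ d i) (D : ℕ) (hD : D = ∑ i, d i)
    (θ : ℝ) (hθ : (θ = m + 1 ∧ m + 2 ≤ D) ∨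
      (θ = m + 1 - 1 / ((m : ℝ) + 3) ∧ m + 1 ≤ D ∧ ¬ IsLin E)) :
    ∃ (μ : (Fin (n + 1) → ℤ) → ℝ) (c : ℝ), 0 < c ∧ HasSum μ (2 * c) ∧
      (∀ x ∈ Points E, 0 < μ x) ∧ (∀ x, x ∉ Points E → μ x = 0) ∧
      (∀ x ∈ Points E, Tendsto (fun H : ℕ => (H : ℝ) ^ s *
        (({F | F ∈ Systems n d H ∧ ∀ i, eval x (F i) = 0} : Set _).ncard : ℝ) /
          ((Systems n d H).ncard : ℝ)) atTop (𝓝 (μ x))) ∧
      (∀ η : ℝ, 0 < η → ∀ T : ℕ → ℕ, Tendsto T atTop atTop →
        (∀ᶠ H : ℕ in atTop, (T H : ℝ) ≤ (H : ℝ) ^ ((D : ℝ) / θ - η)) →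
        Tendsto (fun H : ℕ => (H : ℝ) ^ s *
          (({F | F ∈ Systems n d H ∧ (Zeros E F (T H)).Nonempty} : Set _).ncard : ℝ) /
            ((Systems n d H).ncard : ℝ)) atTop (𝓝 c) ∧
        ∀ x ∈ Points E, Tendsto (fun H : ℕ =>
          (({F | F ∈ Systems n d H ∧ ∀ i, eval x (F i) = 0} : Set _).ncard : ℝ) /
            (({F | F ∈ Systems n d H ∧ (Zeros E F (T H)).Nonempty} : Set _).ncard : ℝ))
          atTop (𝓝 (μ x / c))) ∧
      ∃ T₀ : ℕ, ∀ η : ℝ, 0 < η → ∃ C δ : ℝ, 0 < C ∧ 0 < δ ∧ ∀ H T : ℕ, 1 ≤ H → T₀ ≤ T →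
        (T : ℝ) ≤ (H : ℝ) ^ ((D : ℝ) / θ - η) →
        (({F | F ∈ Systems n d H ∧ ∃ x ∈ Zeros E F T, ∃ y ∈ Zeros E F T, y ≠ x ∧ y ≠ -x} :
          Set _).ncard : ℝ) ≤ C * (H : ℝ) ^ (-δ) *
            (({F | F ∈ Systems n d H ∧ (Zeros E F T).Nonempty} : Set _).ncard : ℝ) ∧
        ∀ R : ℕ, (({F | F ∈ Systems n d H ∧ ∃ x ∈ Zeros E F T, ∃ k, (R : ℤ) < |x k|} :
          Set _).ncard : ℝ) ≤
            C * (((R : ℝ) + 1) ^ (θ - (D : ℝ)) + (H : ℝ) ^ (-δ)) *
            (({F | F ∈ Systems n d H ∧ (Zeros E F T).Nonempty} : Set _).ncard : ℝ) := by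
  subst hD
  rcases hθ with ⟨rfl, h1⟩ | ⟨rfl, h1, h2⟩
  · obtain ⟨A, hA0, hA⟩ := count1 E hdim
    have h3 : ((m + 2 : ℕ) : ℝ) ≤ ((∑ i, d i : ℕ) : ℝ) := Nat.cast_le.2 h1
    rw [Nat.cast_add, Nat.cast_ofNat] at h3
    exact limit_law E d hE A ((m : ℝ) + 1) hA0 (by positivity) hA hd (by linarith) hV
  · obtain ⟨A, hA0, hA⟩ := count2 E hE hprime hdim h2
    have h3 : ((m + 1 : ℕ) : ℝ) ≤ ((∑ i, d i : ℕ) : ℝ) := Nat.cast_le.2 h1
    rw [Nat.cast_add, Nat.cast_one] at h3
    have h4 : (0 : ℝ) < 1 / ((m : ℝ) + 3) := by positivity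
    have h5 : 1 / ((m : ℝ) + 3) < 1 := by
      rw [div_lt_one (by positivity)]
      have : (0 : ℝ) ≤ m := Nat.cast_nonneg m
      linarith
    have h6 : (0 : ℝ) ≤ m := Nat.cast_nonneg m
    exact limit_law E d hE A _ hA0 (by linarith) hA hd (by linarith) hV

end Pool.Agent.Results.MP_7ede32_ag.LawOfTheRationalPoint
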