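import Pool.Agent.Helper17.AP.Over

set_option autoImplicit false

/-!
# Lang's strong conjecture for random varieties: points over all number fields of bounded degree

Let `V` be any projective algebraic set over `ℚ` of dimension `m` in projective `n`-space, the
zero set of a set `E` of forms (its dimension is `m` if and only if its homogeneous coordinate ring
has transcendence degree `m + 1`). For `s` degrees `d_1, …, d_s` and integral forms
`F = (F_1, …, F_s)` of these degrees with coefficients of absolute value at most `H` let
`V_F = V ∩ {F_1 = ⋯ = F_s = 0}`. If `V` and `V_F` are smooth, `dim V_F = m - s` and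
`d_1 + ⋯ + d_s ≥ m + 2`, then `V_F` is of general type (Mori, Fujita).

In the strong form of Lang's conjecture the exceptional set does not depend on the number field.
The results on random complete intersections concern the rational points; here we treat the points
over ALL number fields of degree at most `e`. Let `D = ∑ (d_i + 1 - e)`, all `d_i ≥ e - 1`, and
suppose that `D ≥ m e + 2` (for `e = 1` this is `d_1 + ⋯ + d_s ≥ m + 2`). For all `H, B ≥ 1`:

* the proportion of the `F` for which `V_F` has a point of degree exactly `e` over `ℚ` and of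
  absolute height at most `B` is at most `C / H ^ (e s) * (1 + B ^ (e (m e + 1)) / H ^ D)`;
* it is at least `c / H ^ (e s)` for `B ≥ B₀` if `V` has a point of degree `e` and of height at
  most `B₀` (so, for `B` at most `H ^ (D / (e (m e + 1)))`, its exact order is `H ^ (- e s)`, while
  it is `0` if `V` has no such point); projective space of dimension `n ≥ 1` has points of every
  degree;
* the proportion of the `F` for which `V_F` has, over some number field `K` of degree at most `e`,
  a `K`-rational point of absolute height at most `B`, is at most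
  `C / H ^ s * (1 + B ^ (e (m e + 1)) / H ^ D)`.

So for almost all `V_F` of large degree no exceptional set is needed for the points over all number
fields of degree at most `e` and of height at most `H ^ (D / (e (m e + 1)))`.

The proof: a point `x` of degree `e` with one coordinate `1` has a linear combination
`α = ∑ t ^ k x_k` of degree `e`, with a bounded integer `t`, and of height `H(α) ≥ c H(x) ^ (1 - ε)`
(a combinatorial identity for the monomials in the `x_k`); the forms vanishing at `x` are counted
along the translates by the multiples of `x_j ^ (d - k) (∑ t ^ i x_i) ^ k`, with Gauss's lemma and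
the Mahler measure; the number of the points of degree `e` on `V` is bounded by
`C B ^ (e (m e + 1))`, with the characteristic polynomials of the coordinates.
-/

namespace Pool.Agent.Results.MP_7ede32_ag.PointsOfBoundedDegree

open MvPolynomial Pool.Agent.R870.RC Pool.Agent.Helper17.AP Pool.Agent.Helper259.AbsHt

theorem result (n m s e : ℕ) (he : 1 ≤ e) (E : Set (MvPolynomial (Fin (n + 1)) ℚ))
    (hE : ∀ P ∈ E, ∃ k, P.IsHomogeneous k)
    (hdim : Algebra.trdeg ℚ (MvPolynomial (Fin (n + 1)) ℚ ⧸ Ideal.span E) = m + 1)
    (d : Fin s → ℕ) :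
    (∀ H : ℕ, (Systems n d H).Finite ∧
      (Systems n d H).ncard = (2 * H + 1) ^ (∑ i, (n + d i).choose (d i))) ∧
    -- points of degree exactly `e`, and points over all number fields of degree at most `e`
    ((∀ i, e ≤ d i + 1) → m * e + 2 ≤ ∑ i, (d i + 1 - e) →
      ∃ C : ℝ, 0 < C ∧ ∀ (H : ℕ) (B : ℝ), 1 ≤ H → 1 ≤ B →
      ((AlgPoint E e d H B).ncard : ℝ) ≤ C / (H : ℝ) ^ (e * s) *
        (1 + B ^ (e * (m * e + 1)) / (H : ℝ) ^ (∑ i, (d i + 1 - e))) *
          ((Systems n d H).ncard : ℝ) ∧
      ((FieldPoint E e d H B).ncard : ℝ) ≤ C / (H : ℝ) ^ s *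
        (1 + B ^ (e * (m * e + 1)) / (H : ℝ) ^ (∑ i, (d i + 1 - e))) *
          ((Systems n d H).ncard : ℝ)) ∧
    -- the lower bound
    (∀ B₀ : ℝ, 1 ≤ B₀ →
      (∃ x : Fin (n + 1) → Qbar, IsPoint e B₀ x ∧ ∀ P ∈ E, aeval x P = 0) →
      ∃ c : ℝ, 0 < c ∧ ∀ (H : ℕ) (B : ℝ), 1 ≤ H → B₀ ≤ B →
        c / (H : ℝ) ^ (e * s) * ((Systems n d H).ncard : ℝ) ≤
          ((AlgPoint E e d H B).ncard : ℝ)) ∧
    -- points of degree `e` of projective space
    (1 ≤ n → ∃ B₀ : ℝ, 1 ≤ B₀ ∧ ∃ x : Fin (n + 1) → Qbar, IsPoint e B₀ x) := by
  refine ⟨fun H => ⟨fin_systems d H, ?_⟩, fun hd hD => ?_, fun B₀ hB₀ hx => ?_, fun hn => ?_⟩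
  · rw [card_systems, ← Finset.prod_pow_eq_pow_sum]
    refine Finset.prod_congr rfl fun i _ => ?_
    rw [card_FF, card_Mo]
  · obtain ⟨K₁, hK₁, h₁⟩ := upper n m s e he E hE hdim d hd hD
    obtain ⟨K₂, hK₂, h₂⟩ := upper_field n m s e E hE hdim d hd hD
    refine ⟨K₁ + K₂, by linarith, fun H B hH hB => ⟨(h₁ H B hH hB).trans ?_,
      (h₂ H B hH hB).trans ?_⟩⟩
    · refine mul_le_mul_of_nonneg_right (mul_le_mul_of_nonneg_right ?_ (by positivity))
        (Nat.cast_nonneg _)
      exact div_le_div_of_nonneg_right (by linarith) (by positivity)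
    · refine mul_le_mul_of_nonneg_right (mul_le_mul_of_nonneg_right ?_ (by positivity))
        (Nat.cast_nonneg _)
      exact div_le_div_of_nonneg_right (by linarith) (by positivity)
  · exact lower n s e E d B₀ hB₀ hx
  · exact exists_point n e hn he

end Pool.Agent.Results.MP_7ede32_ag.PointsOfBoundedDegree
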