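import Pool.Agent.Helper54.BP.Main

set_option autoImplicit false

/-!
# Points of degree `m` on hypersurfaces of general type, on average

Let `F` run through the integral forms of degree `d ≥ n + 2` in `n + 1` variables with coefficients
of absolute value at most `H`; the smooth hypersurfaces `F = 0` are of general type. We show without
any hypothesis that for `m ^ 2 + m ≤ d + 1` and every `A > 0` the proportion of the forms `F` such
that `F = 0` has a point of exact degree `m` over `ℚ` and of height at most `A * H` is of the exact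
order `H ^ (-m)`. All number fields of degree `m` are treated at once.
-/

namespace Pool.Agent.Results.MP_7ede32_ag.PointsOfDegreeM

open MvPolynomial

/-- The nonzero forms of degree `d` in `n + 1` variables with integral coefficients of absolute
value at most `H`. -/
def Forms (n d : ℕ) (H : ℝ) : Set (MvPolynomial (Fin (n + 1)) ℤ) :=
  {F | F ≠ 0 ∧ F.IsHomogeneous d ∧ ∀ γ, |((coeff γ F : ℤ) : ℝ)| ≤ H}

/-- The hypersurface `F = 0` in projective space has a point of exact degree `m` over `ℚ` and of
height at most `X`: there are a number field `K` of degree `m` and a zero `x ≠ 0` of `F` with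
coordinates in `K` whose ratios generate `K`, and the height of `x` relative to `K` (the product over
all places `v` of `K` of the numbers `max |x_i|_v ^ n_v`) is at most `X`. -/
def HasPoint (n m : ℕ) (X : ℝ) (F : MvPolynomial (Fin (n + 1)) ℤ) : Prop :=
  ∃ (K : Type) (_ : Field K) (_ : NumberField K) (x : Fin (n + 1) → K), x ≠ 0 ∧
    Module.finrank ℚ K = m ∧
    IntermediateField.adjoin ℚ {z : K | ∃ i j, z = x i / x j} = ⊤ ∧
    Height.mulHeight x ≤ X ∧ aeval x F = 0

/-- **Points of degree `m` on average.** Let `n ≥ 1`, `m ≥ 1`, `d ≥ n + 2`, `m ^ 2 + m ≤ d + 1` and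
`A > 0`. Among the nonzero integral forms of degree `d` in `n + 1` variables with coefficients at most
`H`, the proportion of those which have a zero of exact degree `m` and of height at most `A * H`
lies between `c * H ^ (-m)` and `C * H ^ (-m)` for all large `H`. -/
theorem result (n d m : ℕ) (hn : 1 ≤ n) (hm : 1 ≤ m) (hd : n + 2 ≤ d) (hmd : m ^ 2 + m ≤ d + 1)
    (A : ℝ) (hA : 0 < A) :
    ∃ c C H₀ : ℝ, 0 < c ∧ 0 < C ∧ ∀ H : ℝ, H₀ ≤ H →
      c / H ^ m * ((Forms n d H).ncard : ℝ) ≤
        (({F | F ∈ Forms n d H ∧ HasPoint n m (A * H) F}).ncard : ℝ) ∧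
      (({F | F ∈ Forms n d H ∧ HasPoint n m (A * H) F}).ncard : ℝ) ≤
        C / H ^ m * ((Forms n d H).ncard : ℝ) :=
  Pool.Agent.Helper54.BP.exact_order hn hm hd hmd hA

end Pool.Agent.Results.MP_7ede32_ag.PointsOfDegreeM
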