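import Pool.Agent.Helper17.AL.Up
import Pool.Agent.Helper17.AP.Over

set_option autoImplicit false

/-!
# Lang's strong conjecture for random varieties: the points over all number fields

Let `V` be any projective algebraic set over `ℚ` in projective `n`-space, the zero set of a set `E`
of forms. For `s` degrees `d_1, …, d_s` and integral forms `F = (F_1, …, F_s)` of these degrees
with coefficients of absolute value at most `H` let `V_F = V ∩ {F_1 = ⋯ = F_s = 0}`. If `V` and
`V_F` are smooth, `dim V_F = dim V - s` and the `d_i` are large, then `V_F` is of general type.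

In the strong form of Lang's conjecture the exceptional set does not depend on the number field.
We treat the algebraic points of `V_F` of ALL degrees, that is, the points over all number fields
at once. Let `e ≥ 1` be an integer with `d_i ≥ e - 1` for all `i`, and let
`κ = e ∑ d_i N_i ^ 2`, where `N_i` is the number of the monomials of degree `d_i`. For all
`H, B ≥ 1`:

* the proportion of the `F` for which `V_F` has an algebraic point of ANY degree at least `e` over
  `ℚ` and of absolute height at most `B` is at most `C B ^ κ / H ^ (e s)`;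
* it is at least `c / H ^ (e s)` for `B ≥ B₀` if `V` has a point of degree `e` and of height at
  most `B₀`; projective space of dimension `n ≥ 1` has points of every degree;
* consequently, if `V` has no points of degree less than `e` over `ℚ` (for `e = 1` this is no
  condition), the proportion of the `F` for which `V_F` has, over SOME number field `K` of
  arbitrary degree, a `K`-rational point of absolute height at most `B`, is at most
  `C B ^ κ / H ^ (e s)`.

So for almost all `F` no exceptional set is needed for the points over all number fields and of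
height at most `H ^ δ`, for every `δ < e s / κ`. A power of `H` is the right order of magnitude:

* every hypersurface `F = 0` of degree `d ≥ 1` in projective `n`-space, `n ≥ 1`, where the
  coefficients of `F` are integers of absolute value at most `H`, has an algebraic point of
  absolute height at most `C H ^ (1 / d)`.

The proof: the points of bounded height and unbounded degree are infinite in number. Consider
the vector `v` of the `N` monomials of degree `d` at a point `x`. If its entries span a space of
dimension `r ≥ e` over `ℚ`, then the integral vectors `w` with `∑ w_k v_k = 0` are the integral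
vectors orthogonal to `r` integral vectors of size at most `C H(x) ^ (d N)`: by Cramer's rule for
`r` independent conjugates of `v`, because all the conjugates have the same height, whatever the
degree of the field. So only `C B ^ κ` systems of `e` independent linear equations occur.
-/

namespace Pool.Agent.Results.MP_7ede32_ag.PointsOfEveryDegree

open MvPolynomial Pool.Agent.R870.RC Pool.Agent.Helper17.AP Pool.Agent.Helper17.AL
  Pool.Agent.Helper259.AbsHt

theorem result (n s e : ℕ) (E : Set (MvPolynomial (Fin (n + 1)) ℚ))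
    (hE : ∀ P ∈ E, ∃ k, P.IsHomogeneous k) (d : Fin s → ℕ) :
    (∀ H : ℕ, (Systems n d H).Finite ∧
      (Systems n d H).ncard = (2 * H + 1) ^ (∑ i, (n + d i).choose (d i))) ∧
    -- the points of all degrees at least `e`
    ((∀ i, e ≤ d i + 1) → ∃ C : ℝ, 0 < C ∧ ∀ (H : ℕ) (B : ℝ), 1 ≤ H → 1 ≤ B →
      ((PointAtLeast E e d H B).ncard : ℝ) ≤
        C * B ^ (e * ∑ i, d i * (n + d i).choose (d i) ^ 2) / (H : ℝ) ^ (e * s) *
          ((Systems n d H).ncard : ℝ)) ∧
    -- the lower bound
    (∀ B₀ : ℝ, 1 ≤ B₀ →
      (∃ x : Fin (n + 1) → Qbar, IsPoint e B₀ x ∧ ∀ P ∈ E, aeval x P = 0) →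
      ∃ c : ℝ, 0 < c ∧ ∀ (H : ℕ) (B : ℝ), 1 ≤ H → B₀ ≤ B →
        c / (H : ℝ) ^ (e * s) * ((Systems n d H).ncard : ℝ) ≤
          ((PointAtLeast E e d H B).ncard : ℝ)) ∧
    -- points of degree `e` of projective space
    (1 ≤ n → 1 ≤ e → ∃ B₀ : ℝ, 1 ≤ B₀ ∧ ∃ x : Fin (n + 1) → Qbar, IsPoint e B₀ x) ∧
    -- the points over all number fields
    ((∀ i, e ≤ d i + 1) →
      (∀ (k : ℕ) (B : ℝ) (x : Fin (n + 1) → Qbar), IsPoint k B x → (∀ P ∈ E, aeval x P = 0) →
        e ≤ k) →
      ∃ C : ℝ, 0 < C ∧ ∀ (H : ℕ) (B : ℝ), 1 ≤ H → 1 ≤ B →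
        ((⋃ k, FieldPoint E k d H B).ncard : ℝ) ≤
          C * B ^ (e * ∑ i, d i * (n + d i).choose (d i) ^ 2) / (H : ℝ) ^ (e * s) *
            ((Systems n d H).ncard : ℝ)) ∧
    -- a power of `H` is the right order of magnitude
    (∀ D : ℕ, 1 ≤ n → 1 ≤ D → ∃ C : ℝ, 1 ≤ C ∧ ∀ H : ℕ, 1 ≤ H → ∀ F ∈ Forms n D H,
      ∃ (k : ℕ) (x : Fin (n + 1) → Qbar), IsPoint k (C * (H : ℝ) ^ ((1 : ℝ) / D)) x ∧
        aeval x F = 0) := by
  refine ⟨fun H => ⟨fin_systems d H, ?_⟩, fun hd => upper_all n s e E d hd,
    fun B₀ hB₀ hx => ?_, fun hn he => exists_point n e hn he, fun hd hV => ?_,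
    fun D hn hD => exists_small n D hn hD⟩
  · rw [card_systems, ← Finset.prod_pow_eq_pow_sum]
    refine Finset.prod_congr rfl fun i _ => ?_
    rw [card_FF, card_Mo]
  · obtain ⟨c, hc, h⟩ := lower n s e E d B₀ hB₀ hx
    refine ⟨c, hc, fun H B hH hB => (h H B hH hB).trans ?_⟩
    refine Nat.cast_le.2 (Set.ncard_le_ncard ?_ ((fin_systems d H).subset fun F hF => hF.1))
    rintro F ⟨hF, x, hx1, hx2, hx3⟩
    exact ⟨hF, e, le_rfl, x, hx1, hx2, hx3⟩
  · obtain ⟨C, hC, h⟩ := upper_all n s e E d hd
    refine ⟨C, hC, fun H B hH hB => le_trans ?_ (h H B hH hB)⟩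
    refine Nat.cast_le.2 (Set.ncard_le_ncard ?_ ((fin_systems d H).subset fun F hF => hF.1))
    intro F hF
    obtain ⟨k, hF⟩ := Set.mem_iUnion.1 hF
    have h1 := field_sub E hE k d H B hF
    rw [Set.mem_iUnion₂] at h1
    obtain ⟨k', _, hF', x, hx1, hx2, hx3⟩ := h1
    exact ⟨hF', k', hV k' B x hx1 hx2, x, hx1, hx2, hx3⟩

end Pool.Agent.Results.MP_7ede32_ag.PointsOfEveryDegree
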